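import Mathlib

set_option autoImplicit false

open Set Filter Topology Function

namespace Pool.Agent.H.MP_f24352_gt

lemma box {I : Type} {G : AddSubgroup (I → ZMod 2)} {x : G} {U : Set G} (hU : U ∈ 𝓝 x) :
    ∃ F : Finset I, ∀ y : G, (∀ i ∈ F, y.1 i = x.1 i) → y ∈ U := by
  obtain ⟨V, hV, he⟩ := (mem_nhds_induced _ _ _).1 hU
  rw [nhds_pi, mem_pi'] at hV
  obtain ⟨F, t, ht, hF⟩ := hV
  exact ⟨F, fun y hy => he (hF fun i hi => hy i hi ▸ mem_of_mem_nhds (ht i))⟩

lemma pre {I : Type} (G : AddSubgroup (I → ZMod 2)) (U : Set G) (hU : U ∈ 𝓝 (0 : G)) :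
    ∃ E : Set G, E.Finite ∧ ∀ g, ∃ u ∈ U, ∃ e ∈ E, u + e = g := by
  obtain ⟨F, hF⟩ := box hU
  let φ : G → F → ZMod 2 := fun x d => x.1 d
  refine ⟨range (invFun φ), finite_range _, fun g => ⟨_, hF _ fun d hd => ?_, _, ⟨φ g, rfl⟩,
    sub_add_cancel g _⟩⟩
  have : (invFun φ (φ g)).1 d = g.1 d := congrFun (invFun_eq (f := φ) ⟨g, rfl⟩) ⟨d, hd⟩
  simp [this]

theorem main : ∃ (I : Type) (X : AddSubgroup (I → ZMod 2)) (F : AddSubgroup X),
    IsClosed (F : Set X) ∧ IsGδ (F : Set X) ∧ ∀ v : ℕ → X →+ UnitAddCircle,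
      (∀ n, Continuous (v n)) → (F : Set X) ≠ ⋂ n, {x | v n x = 0} := by
  classical
  let B := Module.Basis.ofVectorSpace (ZMod 2) (ℕ → ZMod 2)
  have hι : Uncountable (Module.Basis.ofVectorSpaceIndex (ZMod 2) (ℕ → ZMod 2)) := by
    refine not_countable_iff.1 fun h => ?_
    have := B.repr.toEquiv.countable_iff.2 inferInstance
    have := Cardinal.mk_le_aleph0 (α := ℕ → ZMod 2)
    rw [Cardinal.mk_pi, Cardinal.prod_const] at this
    exact absurd this (by simpa using Cardinal.aleph0_lt_continuum)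
  let X : AddSubgroup (Module.Basis.ofVectorSpaceIndex (ZMod 2) (ℕ → ZMod 2) ⊕ ℕ × ℕ → ZMod 2) :=
    { carrier := {z | ∃ w, (∀ i, z (Sum.inl i) = B.repr w i) ∧
        ∀ᶠ p in cofinite, z (Sum.inr p) = w p.1}
      add_mem' := by
        rintro x y ⟨w, h1, h2⟩ ⟨w', h3, h4⟩
        exact ⟨w + w', fun i => by simp [h1, h3], by
          filter_upwards [h2, h4] with p h5 h6 using by simp [h5, h6]⟩
      zero_mem' := ⟨0, by simp, by simp⟩
      neg_mem' := by
        rintro x ⟨w, h1, h2⟩
        exact ⟨-w, fun i => by simp [h1], by filter_upwards [h2] with p h5 using by simp [h5]⟩ }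
  let F : AddSubgroup X :=
    { carrier := {x | ∀ i, x.1 (Sum.inl i) = 0}
      add_mem' := fun hx hy i => by simp [hx i, hy i]
      zero_mem' := fun _ => rfl
      neg_mem' := fun hx i => by simp [hx i] }
  have cev : ∀ i, Continuous fun x : X => x.1 i := fun i =>
    (continuous_apply i).comp continuous_subtype_val
  refine ⟨_, X, F, ?_, ?_, fun v hv h => ?_⟩
  · have := isClosed_iInter fun i => isClosed_eq (cev (Sum.inl i)) (continuous_const (y := 0))
    rwa [← ofPred_forall] at this
  · have : (F : Set X) = ⋂ k, ⋂ m, ⋃ n ≥ m, {x : X | x.1 (Sum.inr (k, n)) = 0} := by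
      ext ⟨x, w, h1, h2⟩
      have h3 : ∀ k, ∀ᶠ n in atTop, x (Sum.inr (k, n)) = w k := fun k => by
        rw [← Nat.cofinite_eq_atTop]
        exact (Prod.mk_right_injective k).tendsto_cofinite.eventually h2
      simp only [mem_iInter, mem_iUnion, exists_prop, ← frequently_atTop]
      refine ⟨fun h k => ?_, fun h i => ?_⟩
      · have : w = 0 := B.repr.injective (Finsupp.ext fun i => by simpa [h1] using h i)
        exact ((h3 k).mono fun n hn => by simpa [this] using hn).frequently
      · have : w = 0 := funext fun k => by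
          obtain ⟨n, h4, h5⟩ := ((h k).and_eventually (h3 k)).exists
          exact h5.symm.trans h4
        simp [h1, this]
    rw [this]
    exact IsGδ.iInter fun k => IsGδ.iInter fun m => IsOpen.isGδ
      (isOpen_biUnion fun n _ => (isOpen_discrete {0}).preimage (cev _))
  · let x : _ → X := fun i => ⟨Sum.elim (B.repr (B i)) fun p => B i p.1, B i, fun _ => rfl,
      Eventually.of_forall fun _ => rfl⟩
    have h1 : ∀ n, {i | v n (x i) ≠ 0}.Finite := fun n => by
      obtain ⟨E, hE⟩ := box (x := 0)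
        ((isOpen_lt (hv n).norm (continuous_const (y := 1 / 2))).mem_nhds (by simp))
      refine (E.finite_toSet.preimage Sum.inl_injective.injOn).subset fun i hi => ?_
      by_contra hi'
      let f : X := ⟨Sum.elim 0 fun p => if Sum.inr p ∈ E then B i p.1 else 0, 0, by simp, by
        filter_upwards [(E.finite_toSet.preimage Sum.inr_injective.injOn).compl_mem_cofinite]
          with p hp using if_neg hp⟩
      have h2 : v n f = 0 := mem_iInter.1 (h.le (show f ∈ F from fun _ => rfl)) n
      have h3 := hE (x i - f) (by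
        rintro (j | p) hj
        · have : i ≠ j := fun e => hi' (e ▸ hj)
          simp [x, f, this]
        · simp [x, f, hj])
      have h4 : 2 • v n (x i) = 0 := by
        rw [← map_nsmul, show 2 • x i = 0 from Subtype.ext (funext fun j =>
          (by decide : ∀ c : ZMod 2, 2 • c = 0) _), map_zero]
      have h5 := AddCircle.le_add_order_smul_norm_of_isOfFinAddOrder (p := 1)
        (isOfFinAddOrder_iff_nsmul_eq_zero.2 ⟨2, two_pos, h4⟩) hi
      have h6 : (addOrderOf (v n (x i)) : ℝ) ≤ 2 := by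
        exact_mod_cast addOrderOf_le_of_nsmul_eq_zero two_pos h4
      rw [mem_ofPred_eq, map_sub, h2, sub_zero] at h3
      rw [nsmul_eq_mul] at h5
      nlinarith [norm_nonneg (v n (x i))]
    obtain ⟨i, hi⟩ := (ne_univ_iff_exists_notMem (⋃ n, {i | v n (x i) ≠ 0})).1 fun e =>
      not_countable_univ (e ▸ countable_iUnion fun n => (h1 n).countable)
    have := h.ge (mem_iInter.2 fun n => not_not.1 fun h' => hi (mem_iUnion.2 ⟨n, h'⟩)) i
    simp [x] at this

end Pool.Agent.H.MP_f24352_gt
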